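import Pool.Agent.Work.MP_f94384_co.Flag7.Fin7
import Pool.Agent.Work.MP_f94384_co.Big.R3.Fin
import Pool.Agent.Work.MP_f94384_co.Big.R2.Fin

/-!
# Largest plus smallest adjacency eigenvalue of `K_{r+1}`-free graphs

`f r n` is the maximum of `λ_1(G) + λ_n(G)` over the `K_{r+1}`-free graphs `G` on `n` vertices.
For `r ≥ 3` we have `f r n / n → 1 - 2 / r`, and `f 2 n / n → 7 / 50`. More precisely
`n - 2 ⌈n / r⌉ ≤ f r n ≤ (1 - 2 / r) n` for `r ≥ 3`, with `f r n = (1 - 2 / r) n` when `r` divides
`n`, and `14 ⌊n / 100⌋ ≤ f 2 n ≤ 7 n / 50`, with `f 2 n = 7 n / 50` when `100` divides `n`.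

Lower bounds: the Turán graph, and blow-ups of the Higman-Sims graph (22-regular on 100 vertices,
triangle-free, smallest eigenvalue `-8`).

Upper bounds: let `x ≥ 0` be a top eigenvector, `λ` its eigenvalue and `μ = - λ_n`. Suppose that
`λ - μ` is larger than claimed. Then `∑ x_u x_v` over patterns, with weights given by positive
semidefinite matrices applied to test vectors which are defined by the adjacency to root vertices,
is positive: one uses `A + μ ≥ 0`, the eigenvalue equation, and, by induction on `r`, the bound for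
the neighbourhood of a root. On the other hand the matrices are chosen so that every pattern gets a
nonpositive weight. For `r ≥ 5` there is such a certificate with two roots whose entries are
polynomials in `r`; for `r = 4` there is one with three roots. For `r = 3` and `r = 2` there are
certificates on patterns of seven and eight vertices; they are checked by a program with packed
numbers, which is proved correct and evaluated in the kernel.
-/

namespace Pool.Agent.Results.MP_f94384_co.LargestPlusSmallest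

open Pool.Agent.Work.MP_f94384_co

theorem result :
    (∀ r n : ℕ, 2 ≤ r → 1 ≤ n → IsGreatest (sums r n) (f r n)) ∧
    (∀ r : ℕ, 3 ≤ r →
      Filter.Tendsto (fun n : ℕ => f r n / n) Filter.atTop (nhds (1 - 2 / (r : ℝ)))) ∧
    Filter.Tendsto (fun n : ℕ => f 2 n / n) Filter.atTop (nhds (7 / 50 : ℝ)) ∧
    (∀ r n : ℕ, 3 ≤ r → 1 ≤ n →
      (n : ℝ) - 2 * (⌈(n : ℝ) / r⌉₊ : ℝ) ≤ f r n ∧ f r n ≤ (1 - 2 / (r : ℝ)) * n ∧
      (r ∣ n → f r n = (1 - 2 / (r : ℝ)) * n)) ∧
    (∀ n : ℕ, 1 ≤ n →
      (14 : ℝ) * ((n / 100 : ℕ) : ℝ) ≤ f 2 n ∧ f 2 n ≤ (7 / 50 : ℝ) * n ∧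
      (100 ∣ n → f 2 n = (7 / 50 : ℝ) * n)) := by
  refine ⟨fun r n hr hn => ?_, fun r hr => (Flag.fin_all3 Big.R3.pb hr).2,
    (Flag.fin_two Big.R2.pb).2, fun r n hr hn => ((Flag.fin_all3 Big.R3.pb hr).1 n hn).2,
    fun n hn => ((Flag.fin_two Big.R2.pb).1 n hn).2⟩
  rcases Nat.lt_or_ge r 3 with h | h
  · have h2 : r = 2 := by omega
    rw [h2]
    exact ((Flag.fin_two Big.R2.pb).1 n hn).1
  · exact ((Flag.fin_all3 Big.R3.pb h).1 n hn).1

end Pool.Agent.Results.MP_f94384_co.LargestPlusSmallest
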